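import Pool.Agent.W682.BQ.Stm

/-! Project BQ: the superposition formula for `1 < p < 2` (`S_WKB2`). -/

set_option autoImplicit false

namespace Pool.Agent.W778.BQ.Wkb2

open MeasureTheory Set Filter Topology
open Pool.Agent.W488.IW Pool.Agent.W488.IX Pool.Agent.W682.BQ
open Pool.Agent.W360.BQ (Cf Vg QCF S_FLOWF S_NULLF)

theorem main : S_WKB2 := by
  intro p x y hp1 hp2 hx hy
  rcases eq_or_lt_of_le (add_nonneg hx hy) with hS | hS
  · -- `x = y = 0`
    have hx0 : x = 0 := by linarith
    have hy0 : y = 0 := by linarith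
    subst hx0 hy0
    have hz : ∀ t ∈ Ioi (0 : ℝ), t ^ (p - 3) * Ls t 0 0 = 0 := by
      intro t ht
      unfold Ls
      rw [if_pos (by simpa using le_of_lt ht)]
      ring
    refine ⟨?_, ?_⟩
    · have h0 : IntegrableOn (fun _ : ℝ => (0 : ℝ)) (Ioi 0) volume := integrableOn_zero
      exact h0.congr_fun (fun t ht => (hz t ht).symm) measurableSet_Ioi
    · rw [setIntegral_congr_fun measurableSet_Ioi hz]
      simp [Bp2]
  · set S := x + y with hSdef
    have hp3 : -1 < p - 2 := by linarith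
    have hp4 : -1 < p - 1 := by linarith
    have hp5 : p - 3 < -1 := by linarith
    -- on `(0, S)`
    have e1 : ∀ t ∈ Ioo (0 : ℝ) S, t ^ (p - 3) * Ls t x y = 2 * x * t ^ (p - 2) - t ^ (p - 1) := by
      intro t ht
      unfold Ls
      rw [if_neg (not_le.2 ht.2)]
      have h1 : t ^ (p - 2) = t ^ (p - 3) * t := by
        rw [← Real.rpow_add_one ht.1.ne']
        congr 1
        ring
      have h2 : t ^ (p - 1) = t ^ (p - 3) * t * t := by
        rw [← h1, ← Real.rpow_add_one ht.1.ne']
        congr 1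
        ring
      rw [h1, h2]
      ring
    have e2 : ∀ t ∈ Ioi S, t ^ (p - 3) * Ls t x y = (x ^ 2 - y ^ 2) * t ^ (p - 3) := by
      intro t ht
      unfold Ls
      rw [if_pos (le_of_lt ht)]
      ring
    have i1 : IntervalIntegrable (fun t : ℝ => t ^ (p - 2)) volume 0 S :=
      intervalIntegral.intervalIntegrable_rpow' hp3
    have i2 : IntervalIntegrable (fun t : ℝ => t ^ (p - 1)) volume 0 S :=
      intervalIntegral.intervalIntegrable_rpow' hp4
    have i3 : IntervalIntegrable (fun t : ℝ => 2 * x * t ^ (p - 2) - t ^ (p - 1)) volume 0 S :=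
      (i1.const_mul (2 * x)).sub i2
    have j1 : IntegrableOn (fun t : ℝ => 2 * x * t ^ (p - 2) - t ^ (p - 1)) (Ioo 0 S) :=
      ((intervalIntegrable_iff_integrableOn_Ioc_of_le hS.le).1 i3).mono_set Ioo_subset_Ioc_self
    have j2 : IntegrableOn (fun t : ℝ => t ^ (p - 3) * Ls t x y) (Ioo 0 S) :=
      j1.congr_fun (fun t ht => (e1 t ht).symm) measurableSet_Ioo
    have j2' : IntegrableOn (fun t : ℝ => t ^ (p - 3) * Ls t x y) (Ioc 0 S) :=
      (integrableOn_Ioc_iff_integrableOn_Ioo).2 j2
    have j3 : IntegrableOn (fun t : ℝ => (x ^ 2 - y ^ 2) * t ^ (p - 3)) (Ioi S) :=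
      (integrableOn_Ioi_rpow_of_lt hp5 hS).const_mul _
    have j4 : IntegrableOn (fun t : ℝ => t ^ (p - 3) * Ls t x y) (Ioi S) :=
      j3.congr_fun (fun t ht => (e2 t ht).symm) measurableSet_Ioi
    have hu : Ioc 0 S ∪ Ioi S = Ioi (0 : ℝ) := Ioc_union_Ioi_eq_Ioi hS.le
    have j5 : IntegrableOn (fun t : ℝ => t ^ (p - 3) * Ls t x y) (Ioi 0) := by
      rw [← hu]
      exact j2'.union j4
    refine ⟨j5, ?_⟩
    rw [← hu, setIntegral_union (Ioc_disjoint_Ioi le_rfl) measurableSet_Ioi j2' j4]
    have v1 : ∫ t in Ioc 0 S, t ^ (p - 3) * Ls t x y =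
        2 * x * (S ^ (p - 1) / (p - 1)) - S ^ p / p := by
      rw [integral_Ioc_eq_integral_Ioo, setIntegral_congr_fun measurableSet_Ioo e1,
        ← integral_Ioc_eq_integral_Ioo, ← intervalIntegral.integral_of_le hS.le,
        intervalIntegral.integral_sub (i1.const_mul (2 * x)) i2,
        intervalIntegral.integral_const_mul, integral_rpow (Or.inl hp3), integral_rpow (Or.inl hp4)]
      have h1 : p - 2 + 1 = p - 1 := by ring
      have h2 : p - 1 + 1 = p := by ring
      rw [h1, h2, Real.zero_rpow (by linarith), Real.zero_rpow (by linarith), sub_zero, sub_zero]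
    have v2 : ∫ t in Ioi S, t ^ (p - 3) * Ls t x y =
        (x ^ 2 - y ^ 2) * (S ^ (p - 2) / (2 - p)) := by
      rw [setIntegral_congr_fun measurableSet_Ioi e2, integral_const_mul,
        integral_Ioi_rpow_of_lt hp5 hS]
      have h1 : p - 3 + 1 = p - 2 := by ring
      rw [h1]
      congr 1
      rw [← neg_sub p 2, div_neg, neg_div]
    rw [v1, v2]
    have w1 : S ^ (p - 1) = S ^ (p - 2) * S := by
      rw [← Real.rpow_add_one hS.ne']
      congr 1
      ring
    have w2 : S ^ p = S ^ (p - 2) * S * S := by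
      rw [← w1, ← Real.rpow_add_one hS.ne']
      congr 1
      ring
    unfold Bp2
    rw [← hSdef, w1, w2]
    have g1 : p - 1 ≠ 0 := by linarith
    have g2 : p ≠ 0 := by linarith
    have g3 : 2 - p ≠ 0 := by linarith
    rw [hSdef]
    field_simp
    ring

end Pool.Agent.W778.BQ.Wkb2
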